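import Mathlib

namespace Pool.Agent.Results.MP_45ad35_al.PartitionCovering

universe u

/-- o-conjugacy of two elements of a semigroup `S`: there are `g, h` in `S` with an identity
adjoined such that `a g = g b` and `b h = h a`. -/
def OConj {S : Type u} [Semigroup S] (a b : S) : Prop :=
  ∃ g h : WithOne S, (a : WithOne S) * g = g * (b : WithOne S) ∧
    (b : WithOne S) * h = h * (a : WithOne S)

theorem result (X : Type u) [Nonempty X] (s : Setoid X) :
    ∃ m : Semigroup X, ∀ a b : X, @OConj X m a b ↔ s.r a b := by
  classical
  have : Nonempty (Quotient s) := ⟨Quotient.mk s (Classical.arbitrary X)⟩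
  obtain ⟨R⟩ := nonempty_commRing (Quotient s)
  let m : Semigroup X :=
    { mul := fun x y => (Quotient.mk s x + Quotient.mk s y).out
      mul_assoc := by
        intro a b c
        show (Quotient.mk s ((Quotient.mk s a + Quotient.mk s b).out) + Quotient.mk s c).out =
          (Quotient.mk s a + Quotient.mk s ((Quotient.mk s b + Quotient.mk s c).out)).out
        rw [Quotient.out_eq, Quotient.out_eq, add_assoc] }
  have hmul : ∀ x y : X, Quotient.mk s (x * y) = Quotient.mk s x + Quotient.mk s y := by
    intro x y
    show Quotient.mk s ((Quotient.mk s x + Quotient.mk s y).out) = _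
    rw [Quotient.out_eq]
  have hmul' : ∀ x y : X, x * y = (Quotient.mk s x + Quotient.mk s y).out := fun x y => rfl
  refine ⟨m, fun a b => ?_⟩
  constructor
  · rintro ⟨g, h, h1, -⟩
    have : Quotient.mk s a = Quotient.mk s b := by
      revert h1
      refine WithOne.cases_on g ?_ ?_
      · intro h1
        rw [mul_one, one_mul] at h1
        rw [WithOne.coe_inj.mp h1]
      · intro g h1
        rw [← WithOne.coe_mul, ← WithOne.coe_mul] at h1
        have h2 := congrArg (Quotient.mk s) (WithOne.coe_inj.mp h1)
        rw [hmul, hmul, add_comm] at h2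
        exact add_left_cancel h2
    exact Quotient.exact this
  · intro hab
    have h0 : Quotient.mk s a = Quotient.mk s b := Quotient.sound hab
    refine ⟨(a : WithOne X), (a : WithOne X), ?_, ?_⟩
    · rw [← WithOne.coe_mul, ← WithOne.coe_mul, hmul', hmul', h0]
    · rw [← WithOne.coe_mul, ← WithOne.coe_mul, hmul', hmul', h0]

end Pool.Agent.Results.MP_45ad35_al.PartitionCovering
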